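import Mathlib

set_option autoImplicit false

/-!
# Project AH: the Alternative Hypothesis and primes in short intervals; kernels and statements

Prime side: `∫ (R - u / L)₊ (e^(-u/2) (ψ(e^(u+κ)) - ψ(e^u) - (e^κ - 1) e^u))² du`, `L = log (1/κ)`. The tent
`(R - α)₊` is approximated by `∑ c_k e^(-2 (k+1) α)` (job WA); on the side of the zeros the Cauchy kernels
`Kc` are then close to the kernel `Kt ≥ 0` of the tent (job KD, positive definiteness).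
-/

namespace Pool.Agent.Q260.AH

open MeasureTheory Filter Topology Set

/-- the Cauchy kernel `∫ exp(-2 x |t|) cos (t v) dt` (`x > 0`) -/
noncomputable def Kc (x v : ℝ) : ℝ := 4 * x / (4 * x ^ 2 + v ^ 2)

/-- the kernel of the tent, `∫ (R - |t| / L)₊ cos (t v) dt` (`R, L > 0`) -/
noncomputable def Kt (R L v : ℝ) : ℝ := L * R ^ 2 * Real.sinc (R * L * v / 2) ^ 2

/-- the sum of a kernel over the pairs of points `g i` with weights `w i` -/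
noncomputable def PK {ι : Type} (B : Finset ι) (w g : ι → ℝ) (K : ℝ → ℝ) : ℝ :=
  ∑ i ∈ B, ∑ j ∈ B, w i * w j * K (g i - g j)

/-- approximation of the tent by exponentials -/
def Apx (R ε : ℝ) (N : ℕ) (c : ℕ → ℝ) : Prop := ∀ α : ℝ, 0 ≤ α →
  |(∑ k ∈ Finset.range N, c k * Real.exp (-(2 * (k + 1) * α))) - max 0 (R - α)| ≤
    ε * Real.exp (-(2 * α))

/-- JOB WA. Proof. `f y = max 0 (R + log y / 2) / y` for `y > 0`, `f y = 0` for `y ≤ 0`, is continuous on `[0, 1]` (it vanishes for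
`y < exp (-2R)`). Weierstrass (`exists_polynomial_near_continuousMap`, or `polynomialFunctions_closure_eq_top`): a polynomial `p` with `|p y - f y| ≤ ε` on `[0, 1]`;
multiply by `y = exp (-2α)`; `c k = p.coeff k`, `N = p.natDegree + 1`. -/
def S_WA : Prop := ∀ R ε : ℝ, 0 < R → 0 < ε → ∃ (N : ℕ) (c : ℕ → ℝ), Apx R ε N c

/-- JOB KD (positive definiteness). Proof. `Kc x v = ∫ t, exp (-2 x |t|) * cos (t v)` for `x > 0`; `Kt R L v = ∫ t, max 0 (R - |t| / L) * cos (t v)`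
(for `v ≠ 0`: `∫ = 2 L (1 - cos (R L v)) / (L v)²`; `v = 0`: `L R²`). So for all `B, w, g` and integrable even `e`: `∑∑ w w' ∫ e(t) cos (t (g - g')) dt = ∫ e(t) ((∑ w cos (t g))² + (∑ w sin (t g))²) dt`.
Put `e(t) = ∑ c_k exp (-2 (k+1) |t| / L) - max 0 (R - |t| / L)`; `|e(t)| ≤ ε exp (-2 |t| / L)` by `Apx` with `α = |t| / L`. -/
def S_KD : Prop := ∀ {ι : Type} (B : Finset ι) (w g : ι → ℝ) (R ε L : ℝ) (N : ℕ) (c : ℕ → ℝ),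
  0 < R → 0 < ε → 0 < L → Apx R ε N c →
  |(∑ k ∈ Finset.range N, c k * PK B w g (Kc ((k + 1) / L))) - PK B w g (Kt R L)| ≤
    ε * PK B w g (Kc (1 / L))

/-- JOB SC (change of scale). Proof. As `S_KD`, with `e(t) = max 0 (R - |t| / L) - max 0 (R - |t| / L')`: it vanishes for `|t| ≥ 2 R L`, and for `|t| ≤ 2 R L` it is at most
`|t| |1/L - 1/L'| ≤ 4 R |L'/L - 1|`, while `exp (-2 |t| / L) ≥ exp (-4 R)`. So `C = 4 R exp (4 R)`. -/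
def S_SC : Prop := ∀ R : ℝ, 0 < R → ∃ C : ℝ, 0 < C ∧ ∀ {ι : Type} (B : Finset ι) (w g : ι → ℝ) (L L' : ℝ),
  0 < L → L / 2 ≤ L' → L' ≤ 2 * L →
  |PK B w g (Kt R L) - PK B w g (Kt R L')| ≤ C * |L' / L - 1| * PK B w g (Kc (1 / L))

/-- JOB CR (pairs across a point `t0`). Proof. Unit intervals: `n = ⌊t0 - g i⌋` for `i ∈ A`, `m = ⌊g j - t0⌋` for `j ∈ B`; each unit interval carries weight at most `2 M` (take `t` in it), and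
`|g i - g j| ≥ n + m`. So the sum is at most `4 M² ∑_{n, m ≤ T + 1} 1 / (1 + (n + m)²) ≤ 4 M² ∑_{k ≤ 2 T + 2} (k + 1) / (1 + k²) ≤ C M² log T`. -/
def S_CR : Prop := ∃ C : ℝ, 0 < C ∧ ∀ {ι : Type} (A B : Finset ι) (w g : ι → ℝ) (M T t0 : ℝ),
  2 ≤ T → 0 ≤ M → 0 ≤ t0 → t0 ≤ T → (∀ i, 0 ≤ w i) → (∀ i ∈ A, 0 ≤ g i ∧ g i ≤ t0) → (∀ i ∈ B, t0 ≤ g i ∧ g i ≤ T) →
  (∀ t ∈ Icc 0 T, ∑ i ∈ A, w i * (1 / (1 + (g i - t) ^ 2)) ≤ M) →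
  (∀ t ∈ Icc 0 T, ∑ i ∈ B, w i * (1 / (1 + (g i - t) ^ 2)) ≤ M) →
  ∑ i ∈ A, ∑ j ∈ B, w i * w j * (1 / (1 + (g i - g j) ^ 2)) ≤ C * (M ^ 2 * Real.log T)

/-- JOB RS (Riemann sums; `c` of any sign). Proof. Compare `Pool.Agent.Q260.GM.riemann_low` (`Pool/Agent/Q260/GM/Xb.lean`). Divide `[p0, q0]` into `n` equal pieces `[y_j, y_(j+1)]`, with `|φ - φ(y_j)| ≤ η` on each (uniform continuity),
`Φ = sup φ`. On a piece: `∫ φ g ≥ φ(y_j) ∫ g - η ∫ m ≥ φ(y_j) (c s - ε ∫ h - δ') - η ∫ m`, `s` the length. Sum: `∑ φ(y_j) c s ≥ c ∫ φ - |c| η A`, `∑ φ(y_j) ∫ h ≤ ∫ φ h + η M`,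
`n Φ δ' ≤ δ / 4`, and `|c| η A + ε η M + η M ≤ δ / 2`. -/
def S_RS : Prop := ∀ {ι : Type} {l : Filter ι} (g m h : ι → ℝ → ℝ) (φ : ℝ → ℝ) (A c ε M : ℝ),
  0 < A → 0 ≤ ε → 0 ≤ M → (∀ i a b, IntervalIntegrable (g i) volume a b) →
  (∀ i a b, IntervalIntegrable (m i) volume a b) → (∀ i a b, IntervalIntegrable (h i) volume a b) →
  (∀ i y, |g i y| ≤ m i y) → (∀ i y, 0 ≤ h i y) →
  (∀ᶠ i in l, ∫ y in (0 : ℝ)..A, m i y ≤ M) → (∀ᶠ i in l, ∫ y in (0 : ℝ)..A, h i y ≤ M) → Continuous φ →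
  (∀ p q : ℝ, 0 ≤ p → p < q → q ≤ A → ∀ δ : ℝ, 0 < δ →
    ∀ᶠ i in l, c * (q - p) - ε * (∫ y in p..q, h i y) - δ ≤ ∫ y in p..q, g i y) →
  ∀ p0 q0 : ℝ, 0 ≤ p0 → p0 < q0 → q0 ≤ A → (∀ y ∈ Icc p0 q0, 0 ≤ φ y) → ∀ δ : ℝ, 0 < δ →
    ∀ᶠ i in l, c * (∫ y in p0..q0, φ y) - ε * (∫ y in p0..q0, φ y * h i y) - δ ≤ ∫ y in p0..q0, φ y * g i y

end Pool.Agent.Q260.AH
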