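import Pool.Agent.Q260.GM.Xj
import Pool.Agent.Q260.AH.Da
import Pool.Agent.Y763.AH.E

set_option autoImplicit false

/-!
# Project AH: the Alternative Hypothesis and primes in short intervals; second part of the statements

Notation: `L = LL κ = log (1/κ)`; heights `y / κ`. `gd κ a y = (Re ζ'/ζ (1/2 + a/L + i y/κ) / L)²`, `SS κ x = ∫_0^∞ Dl κ u ² e^(-2xu) du`, `Dl κ u` the error for
primes in `(e^u, e^(u+κ)]`. Everything about `gd`, `SS`, `KI`, `Dl` is in `Pool/Agent/Q260/GM/` (`Va.lean` - `Xj.lean`).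
-/

namespace Pool.Agent.Q260.AH

open MeasureTheory Filter Topology Set
open Pool.Agent.Y749.Rig (ZZ mm nT)
open Pool.Agent.Q260.GM (gd LL kk Dl L2psi SS kT)

open Classical in
/-- the zeros with ordinate in `(T₁, T₂]` -/
noncomputable def ZB (T1 T2 : ℝ) : Finset ℂ := ZZ T2 \ ZZ T1

/-- the sum of a kernel over the pairs in a block -/
noncomputable def PB (K : ℝ → ℝ) (T1 T2 : ℝ) : ℝ := PK (ZB T1 T2) mm Complex.im K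

/-- the combination of the densities -/
noncomputable def gc (N : ℕ) (c : ℕ → ℝ) (κ y : ℝ) : ℝ := ∑ k ∈ Finset.range N, c k * gd κ (k + 1) y

/-- the side of the primes -/
noncomputable def WV (R κ : ℝ) : ℝ := ∫ u in Ioi (0 : ℝ), max 0 (R - u / LL κ) * Dl κ u ^ 2

/-- the normalised excess of a block -/
noncomputable def EX (R κ p q : ℝ) : ℝ :=
  κ / LL κ ^ 2 * (Real.pi / 2 * PB (Kt R (LL κ)) (p / κ) (q / κ)) - R ^ 2 * (q - p) / 4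

/-- the functional of the theorem -/
noncomputable def WT (R T : ℝ) : ℝ := T / Real.log T ^ 2 * ∫ x in (1 : ℝ)..(T ^ R),
  (R - Real.log x / Real.log T) * ((Chebyshev.psi (x + x / T) - Chebyshev.psi x - x / T) ^ 2 / x ^ 2)

/-- JOB BL (from `S_CR`). Proof. `END`: for `Y > 0`, `|∫_0^Y gd κ a - (κ/L² (π/2 QQ (a/L) (Y/κ)) - Y/4)| ≤ δ` eventually: this is `main` inside the proof of `GM.LOC` (`Xa.lean`) and `r_lim`.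
`QQ x T = PK (ZZ T) mm im (Kc x)` (`rfl`). `PK (ZZ T2) = PK (ZZ T1) + PB + 2 (cross pairs)`; cross pairs: `Kc x v ≤ (1/x) / (1 + v²)` for `x ≤ 1/2` and `S_CR` with `M = K Lg T2` (`GM.fin_le`, `Tb.lean`): at most
`(L/a) C K² (2 log T2)³`, times `κ/L²` tends to 0 (`GM.log4_small` at `1/κ`). `Y1 = 0`: `ZZ 0 = ∅` (`Y763.AH.line` or no zeros with `Im = 0`), integral from 0. -/
def S_BL : Prop := RiemannHypothesis → ∀ a Y1 Y2 δ : ℝ, 0 < a → 0 ≤ Y1 → Y1 < Y2 → 0 < δ → ∀ᶠ κ : ℝ in 𝓝[>] 0,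
  |(∫ y in Y1..Y2, gd κ a y) - (κ / LL κ ^ 2 * (Real.pi / 2 * PB (Kc (a / LL κ)) (Y1 / κ) (Y2 / κ)) - (Y2 - Y1) / 4)| ≤ δ

/-- JOB GB (from `S_BL`, `S_KD`). Proof. Sum of `S_BL` for `a = k + 1` with weights `c k` (error `δ / (2 (1 + ∑ |c k|))` each); `S_KD` for the block, `L = LL κ`; `|∑ c k - R| ≤ ε` (`Apx` at `α = 0`);
`κ/L² π/2 PB (Kc (1/L)) ≤ ∫_p^q gd κ 1 + (q-p)/4 + δ'` by `S_BL` for `a = 1`. `(π/2) κ/L² PB (Kt) - R (q-p)/4 = EX + (R² - R)/4 (q-p)`. -/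
def S_GB : Prop := RiemannHypothesis → ∀ (R ε p q δ : ℝ) (N : ℕ) (c : ℕ → ℝ), 0 < R → 0 < ε → ε ≤ 1 → Apx R ε N c → 0 ≤ p → p < q → 0 < δ →
  ∀ᶠ κ : ℝ in 𝓝[>] 0, |(∫ y in p..q, gc N c κ y) - (EX R κ p q + (R ^ 2 - R) / 4 * (q - p))| ≤
    ε * (∫ y in p..q, (gd κ 1 y + 1)) + δ

/-- JOB WP. Proof. `|∑ c_k e^(-2(k+1)u/L) - max 0 (R - u/L)| ≤ ε e^(-2u/L)` (`Apx`, `α = u/L`); multiply by `Dl κ u ²`, integrate (`GM.Dl_sq_int`): `|∑ c_k SS κ ((k+1)/L) - WV R κ| ≤ ε SS κ (1/L) ≤ ε C κ L²` (`GM.SS_bdd`, `lam = 1`, `a1 = a2 = 1`;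
this `C` is the one of the statement). Then `GM.T1b` with `lam = 1`, `a1 = 1`, `a2 = N`, for each `k < N`; sum. (`∫ kk gc = ∑ c_k ∫ kk gd`: `GM.gd_integrable`, `GM.ev_gen`, `GM.kk_le`.) -/
def S_WP : Prop := RiemannHypothesis → L2psi → ∃ C : ℝ, 0 < C ∧ ∀ (R ε δ : ℝ) (N : ℕ) (c : ℕ → ℝ), 0 < R → 0 < ε → 0 < δ → Apx R ε N c →
  ∀ᶠ κ : ℝ in 𝓝[>] 0, |WV R κ - 2 / Real.pi * (κ * LL κ ^ 2 * ∫ y in Ioi (0 : ℝ), kk 1 y * gc N c κ y)| ≤ (C * ε + δ) * (κ * LL κ ^ 2)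

/-- JOB EL (the excess of a block is not negative in the limit). Proof. `Kt ≥ 0`, `Kt R L 0 = L R²`, so `PB (Kt R L) ≥ L R² ∑_{block} mm ≥ L R² (Ns (q/κ) - Ns (p/κ))` (`mm² ≥ mm`), and `GM.Ns_lim`, `GM.T_top`, `GM.r_lim` (`Xa.lean`); `p = 0`: `Ns 0 = 0`. -/
def S_EL : Prop := ∀ R p q δ : ℝ, 0 < R → 0 ≤ p → p < q → 0 < δ → ∀ᶠ κ : ℝ in 𝓝[>] 0, -δ ≤ EX R κ p q

/-- JOB LOW (from `S_WA`, `S_RS`, `S_GB`, `S_WP`, `S_EL`). Proof. Small `ε`, `Apx R ε N c` by `S_WA`. By `S_WP`, `WV ≥ κL² (2/π ∫ kk 1 gc - C ε - δ)`. `∫_{Ioi 0} kk gc = ∫_0^1 (kk - kk 1 1) gc + kk 1 1 ∫_0^1 gc + ∫_1^A kk gc + ∫_{Ioi A} kk gc`.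
`S_RS` twice (`g = gc`, `m = ∑ |c_k| gd κ (k+1)`, `h = gd κ 1 + 1`, `c = (R²-R)/4`, `φ = kk 1 - kk 1 1` on `[0,1]`, `φ = kk 1` on `[1,A]`), its hypothesis from `S_GB` and `S_EL`; continuity of `gd κ a` holds eventually (use the trick of `GM.KI_low`, `Xb.lean`);
`∫_0^1 gc ≥ EX R κ 0 1 + (R²-R)/4 - ε ∫_0^1 (gd κ 1 + 1) - δ` by `S_GB`. Errors: `ε ∫ kk 1 (gd κ 1 + 1) ≤ C ε` with `C` independent of `ε` (`GM.ev_gen` for `a = 1`, `GM.kk_le`); tail `∫_{Ioi A} kk |gc| ≤ 5 ∑ |c_k| C (1/(1+A) + √κ)` (`GM.ev_gen` for `a1 = 1`, `a2 = N`), `A` large after `ε`.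
`∫_{Ioi 0} kk 1 = π` (`GM.kk_one_int`); `kk 1` decreases on `[0, 1]` (compare `GM.kk_ge_two`, `Xd.lean`). -/
def S_LOW : Prop := RiemannHypothesis → L2psi → ∀ R η : ℝ, 0 < R → 0 < η → ∀ᶠ κ : ℝ in 𝓝[>] 0,
  κ * LL κ ^ 2 * ((R ^ 2 - R) / 2 + 2 / Real.pi * kk 1 1 * EX R κ 0 1 - η) ≤ WV R κ

/-- JOB UPP (from `S_WA`, `S_RS`, `S_GB`, `S_WP`). Proof. As `S_LOW`, with `g = -gc`, `c = -(R²-R)/4`, `φ = kk 1` on `[0, A]`. -/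
def S_UPP : Prop := RiemannHypothesis → L2psi → ∀ R η : ℝ, 0 < R → 0 < η →
  (∀ p q δ : ℝ, 0 ≤ p → p < q → 0 < δ → ∀ᶠ κ : ℝ in 𝓝[>] 0, EX R κ p q ≤ δ) →
  ∀ᶠ κ : ℝ in 𝓝[>] 0, WV R κ ≤ κ * LL κ ^ 2 * ((R ^ 2 - R) / 2 + η)

/-- JOB XS. Proof. `T = 1/κ`, `L = log T`, `nT T = T L / 2π`; `ZB 0 T = ZZ T`. `Kt R L v = L R² sinc² (R L v / 2)`, `fl (tr R) (v L / 2π) = sinc² (R L v / 2)` (`fl`, `tr`: `Pool.Agent.Y749.Rig`; `tr R α = max 0 (1 - |α|/R) / R`), `ww ≤ 1`;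
`∑∑ mm mm' gw R T = NZ + 2 PT R T` as in the proof of `Y763.AH.S_eq` (`sum_idx2`, `full_sum`, `gw_diag`). -/
def S_XS : Prop := RiemannHypothesis → ∀ R : ℝ, 0 < R → ∀ᶠ κ : ℝ in 𝓝[>] 0,
  R ^ 2 / 4 * (((SG.NZ (1 / κ) : ℝ) + 2 * Pool.Agent.Y763.AH.PT R (1 / κ)) / nT (1 / κ) - 1) ≤ EX R κ 0 1

/-- JOB SX (from `S_SC`). Proof. Cross pairs are `≥ 0`, so `PB (Kt R L) T1 T2 ≤ PK (ZZ T2) (Kt R L) - PK (ZZ T1) (Kt R L)`, `T1 = p/κ`, `T2 = q/κ`; `PK (ZZ T1) (Kt R L) ≥ L R² Ns T1` (diagonal). For `T = T2`, `L' = log T`, `L'/L → 1` (`GM.r_lim`):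
`S_SC` gives `PK (ZZ T) (Kt R L) ≤ PK (ZZ T) (Kt R L') + C |L'/L - 1| QQ (1/L) T`, `QQ (1/L) T ≤ C' T L²` (`GM.QQ_eq`, `GM.ra_bdd`). `PK (ZZ T) (Kt R L') = L' R² ∑∑ mm mm' sinc² (R L' v/2)`, and `sinc² = sinc² ww + sinc² (1 - ww)`, `ww v = 4/(4+v²)`
(`Pool.Agent.Y749.Rig`), `sinc² (R L' v/2) (1 - ww v) ≤ (4 / (R² L'²)) / (4 + v²)`, so the second part is at most `C'' L' / L'² * N(T) Lg T` (`GM.fin_le`), small against `T L²`; the first is `L' R² (NZ T + 2 PT R T)` (as in `S_XS`). `Y763.AH.NZ_lim`, `GM.Ns_lim`. -/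
def S_SX : Prop := RiemannHypothesis → ∀ R : ℝ, 0 < R →
  Tendsto (fun T => Pool.Agent.Y763.AH.PT R T / nT T) atTop (𝓝 0) →
  ∀ p q δ : ℝ, 0 ≤ p → p < q → 0 < δ → ∀ᶠ κ : ℝ in 𝓝[>] 0, EX R κ p q ≤ δ

/-- JOB TK. Proof. `κ = kT T = log (1 + 1/T)`, `x = e^u`: `WT R T = T / log² T ∫_0^{R log T} (R - u / log T) Dl κ u ² du` (compare `GM.JJ_eq`, `Wd.lean`), and `(R - u/log T) = max 0 (..)` there, `0` beyond. `log T ≤ LL κ ≤ log T + 1/T` (`GM.LL_kT`).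
`|max 0 (R - u/log T) - max 0 (R - u/L)| ≤ θ(T) e^(-2u/L)`, `θ → 0` (both vanish for `u ≥ 2 R L`; else at most `(u/L) |L/log T - 1|`), so the difference of the integrals is at most `θ SS κ (1/L) ≤ θ C κL²` (`GM.SS_bdd`). `GM.norm_lim` (`Xi.lean`): `T / log² T κ L² → 1`, and `WV R κ ≤ C' κL²`. -/
def S_TK : Prop := RiemannHypothesis → L2psi → ∀ R : ℝ, 0 < R →
  Tendsto (fun T => WT R T - WV R (kT T) / (kT T * LL (kT T) ^ 2)) atTop (𝓝 0)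

end Pool.Agent.Q260.AH
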