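import Pool.Agent.Q260.AH.Db
import Pool.Agent.Q172.HS.S3

set_option autoImplicit false

/-!
# Project GW: primes in short intervals with a general weight and small gaps between zeros

The tent of project AH (`Da.lean`, `Db.lean`) is replaced by a continuous weight `w` with `w = 0` on `[R, ∞)`. The kernel on the side of
the zeros, `Kg`, may change sign. `L = LL κ`; heights `y / κ`.
-/

namespace Pool.Agent.Q260.AH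

open MeasureTheory Filter Topology Set
open Pool.Agent.Y749.Rig (ZZ mm nT)
open Pool.Agent.Q260.GM (gd LL kk Dl L2psi SS kT)

/-- the weights -/
def Wok (w : ℝ → ℝ) (R : ℝ) : Prop := 0 < R ∧ Continuous w ∧ ∀ α : ℝ, R ≤ α → w α = 0

/-- the cosine transform `∫ w (|t| / L) cos (t v) dt` of the weight -/
noncomputable def Kg (w : ℝ → ℝ) (R L v : ℝ) : ℝ := 2 * L * ∫ s in (0 : ℝ)..R, w s * Real.cos (L * v * s)

/-- approximation of the weight by exponentials -/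
def Apw (w : ℝ → ℝ) (ε : ℝ) (N : ℕ) (c : ℕ → ℝ) : Prop := ∀ α : ℝ, 0 ≤ α →
  |(∑ k ∈ Finset.range N, c k * Real.exp (-(2 * (k + 1) * α))) - w α| ≤ ε * Real.exp (-(2 * α))

/-- the side of the primes -/
noncomputable def WVg (w : ℝ → ℝ) (κ : ℝ) : ℝ := ∫ u in Ioi (0 : ℝ), w (u / LL κ) * Dl κ u ^ 2

/-- the normalised sum over the pairs of a block -/
noncomputable def BX (w : ℝ → ℝ) (R κ p q : ℝ) : ℝ :=
  κ / LL κ ^ 2 * (Real.pi / 2 * PB (Kg w R (LL κ)) (p / κ) (q / κ))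

/-- the functional of the theorem -/
noncomputable def WTg (w : ℝ → ℝ) (R T : ℝ) : ℝ := T / Real.log T ^ 2 * ∫ x in (1 : ℝ)..(T ^ R),
  w (Real.log x / Real.log T) * ((Chebyshev.psi (x + x / T) - Chebyshev.psi x - x / T) ^ 2 / x ^ 2)

/-- JOB g1. Proof. As `Q154.AH.t_WA` (`f y = w (-(log y) / 2) / y` for `y > 0`, `0` for `y ≤ 0`, is continuous on `[0, 1]`). -/
def S_WAg : Prop := ∀ (w : ℝ → ℝ) (R ε : ℝ), Wok w R → 0 < ε → ∃ (N : ℕ) (c : ℕ → ℝ), Apw w ε N c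

/-- JOB g2. Proof. As `Q224.AH.t_KD`; `Kg w R L v = ∫ t, w (|t| / L) * cos (t v)`. -/
def S_KDg : Prop := ∀ {ι : Type} (B : Finset ι) (wt g : ι → ℝ) (w : ℝ → ℝ) (R ε L : ℝ) (N : ℕ) (c : ℕ → ℝ),
  Wok w R → 0 < ε → 0 < L → Apw w ε N c →
  |(∑ k ∈ Finset.range N, c k * PK B wt g (Kc ((k + 1) / L))) - PK B wt g (Kg w R L)| ≤
    ε * PK B wt g (Kc (1 / L))

/-- JOB g3 (from `S_BL`, `S_KDg`). Proof. As `S_GB`. -/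
def S_GBg : Prop := RiemannHypothesis → ∀ (w : ℝ → ℝ) (R ε p q δ : ℝ) (N : ℕ) (c : ℕ → ℝ), Wok w R → 0 < ε → ε ≤ 1 → Apw w ε N c →
  0 ≤ p → p < q → 0 < δ →
  ∀ᶠ κ : ℝ in 𝓝[>] 0, |(∫ y in p..q, gc N c κ y) - (BX w R κ p q - w 0 / 4 * (q - p))| ≤
    ε * (∫ y in p..q, (gd κ 1 y + 1)) + δ

/-- JOB g4. Proof. As `S_WP`. -/
def S_WPg : Prop := RiemannHypothesis → L2psi → ∃ C : ℝ, 0 < C ∧ ∀ (w : ℝ → ℝ) (R ε δ : ℝ) (N : ℕ) (c : ℕ → ℝ), Wok w R → 0 < ε → 0 < δ → Apw w ε N c →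
  ∀ᶠ κ : ℝ in 𝓝[>] 0, |WVg w κ - 2 / Real.pi * (κ * LL κ ^ 2 * ∫ y in Ioi (0 : ℝ), kk 1 y * gc N c κ y)| ≤ (C * ε + δ) * (κ * LL κ ^ 2)

/-- JOB g5 (from `S_WAg`, `S_GBg`, `S_BL`): the block `p = 0` is harmless. Proof. Small `ε`, `Apw w ε N c`. `S_GBg` for the blocks `(0, q)` and `(p, q)` with small `p > 0`:
`BX 0 q ≤ ∫_0^q gc + w 0 / 4 q + ε ∫_0^q (gd κ 1 + 1) + δ`, `∫_0^q gc = ∫_0^p gc + ∫_p^q gc`, `|∫_0^p gc| ≤ ∑ |c_k| ∫_0^p gd κ (k+1)` and, for fixed `a ≥ 1` and `Y > 0`, `∫_0^Y gd κ a ≤ C Y + δ` eventually with `C` independent of `Y`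
(`S_BL` for `(0, Y)`, `PB (Kc (a/L)) 0 (Y/κ) = QQ (a/L) (Y/κ)`, and `GM.QQ_eq`, `GM.ra_bdd`, `GM.r_lim`). Choose `ε`, then `p`, then `δ`. -/
def S_ZP : Prop := RiemannHypothesis → ∀ (w : ℝ → ℝ) (R c : ℝ) (l : Filter ℝ), Wok w R → l ≤ 𝓝[>] 0 →
  (∀ p q δ : ℝ, 0 < p → p < q → 0 < δ → ∀ᶠ κ : ℝ in l, BX w R κ p q ≤ c * (q - p) + δ) →
  ∀ p q δ : ℝ, 0 ≤ p → p < q → 0 < δ → ∀ᶠ κ : ℝ in l, BX w R κ p q ≤ c * (q - p) + δ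

/-- JOB g6 (from `S_WAg`, `S_RS`, `S_GBg`, `S_WPg`). Proof. As `S_UPP`, along the filter `l`. -/
def S_UPPg : Prop := RiemannHypothesis → L2psi → ∀ (w : ℝ → ℝ) (R c η : ℝ) (l : Filter ℝ), Wok w R → l ≤ 𝓝[>] 0 → 0 < η →
  (∀ p q δ : ℝ, 0 ≤ p → p < q → 0 < δ → ∀ᶠ κ : ℝ in l, BX w R κ p q ≤ c * (q - p) + δ) →
  ∀ᶠ κ : ℝ in l, WVg w κ ≤ κ * LL κ ^ 2 * (2 * c - w 0 / 2 + η)

/-- JOB g7 (the blocks in terms of small spacings). Proof. `T1 = p / κ`, `T2 = q / κ`, `k0 x = 2 ∫_0^R w s cos (2 π x s) ds`, so `Kg w R L v = L k0 (L v / 2π)`. Listing the ordinates in increasing order (as in `Y763.AH.S_eq`, `sum_idx2`, `full_sum`),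
`PB (Kg w R L) T1 T2 = L k0 0 (NZ T2 - NZ T1) + 2 L ∑_{n < n' in the block} k0 (L (γ_n' - γ_n) / 2π)` `≤ L k0 0 (NZ T2 - NZ T1) + 2 L ∑_{n < n' ≤ NZ T2} k0⁺`, and `k0⁺` is continuous, `0` for `x ≥ lam`: for every `ρ > 0` there is `δ' > 0` with
`k0⁺ x ≤ A 1_{|x| < lam - 2 δ'} + ρ cy x` (`cy`: `Q172.HS`, `S4.lean`; the number of pairs within `lam` spacings is at most `C T log T`, `Q172.HS.PK_cy` or `GM.ra_bdd`). `log T2 / L → 1` (`GM.r_lim`). The near pairs: `Q172.HS.near_pairs`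
(`S3.lean`) with `SM (lam - δ) T2`. `Y763.AH.NZ_lim`, `nT (q/κ) κ / L → q / 2π`; `κ/L² π/2 L k0 0 (NZ T2 - NZ T1) → (q - p) k0 0 / 4 = (q - p) / 2 ∫_0^R w`. -/
def S_NG : Prop := RiemannHypothesis → ∀ (w : ℝ → ℝ) (R lam : ℝ), Wok w R → 0 < lam →
  (∀ x : ℝ, lam ≤ x → ∫ s in (0 : ℝ)..R, w s * Real.cos (2 * Real.pi * x * s) ≤ 0) →
  ∀ p q δ : ℝ, 0 ≤ p → p < q → 0 < δ → ∃ δ' K : ℝ, 0 < δ' ∧ 0 < K ∧ ∀ᶠ κ : ℝ in 𝓝[>] 0,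
    BX w R κ p q ≤ (∫ s in (0 : ℝ)..R, w s) / 2 * (q - p) + δ + K * (((Q172.HS.SM (lam - δ') (q / κ)).card : ℝ) / nT (q / κ))

/-- JOB g8. Proof. As `S_TK`. -/
def S_TKg : Prop := RiemannHypothesis → L2psi → ∀ (w : ℝ → ℝ) (R : ℝ), Wok w R →
  Tendsto (fun T => WTg w R T - WVg w (kT T) / (kT T * LL (kT T) ^ 2)) atTop (𝓝 0)

end Pool.Agent.Q260.AH
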