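import Pool.Agent.Q260.AH.Db

set_option autoImplicit false

/-!
# Project AH: assembly
-/

namespace Pool.Agent.Q260.AH

open MeasureTheory Filter Topology Set
open Pool.Agent.Y749.Rig (ZZ mm nT)
open Pool.Agent.Q260.GM (gd LL kk Dl L2psi SS kT kT_pos kT_le kT_ge LL_kT kT_tendsto)
open SG (NZ)

lemma kk11_pos : 0 < kk 1 1 := by
  unfold kk
  have h : 0 < Real.sin (1 / 2) := by
    apply Real.sin_pos_of_pos_of_lt_pi (by norm_num)
    linarith [Real.pi_gt_three]
  have e : Real.sinc (1 * 1 / 2) = Real.sin (1 / 2) / (1 / 2) := by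
    rw [Real.sinc_of_ne_zero (by norm_num)]
    norm_num
  rw [e]
  positivity

/-- the lower bound at height `T` -/
theorem lowT (hLOW : S_LOW) (hTK : S_TK) (RH : RiemannHypothesis) (hp : L2psi) {R η : ℝ} (hR : 0 < R)
    (hη : 0 < η) : ∀ᶠ T : ℝ in atTop,
    (R ^ 2 - R) / 2 + 2 / Real.pi * kk 1 1 * EX R (kT T) 0 1 - η ≤ WT R T := by
  have h1 := kT_tendsto.eventually (hLOW RH hp R (η / 2) hR (by linarith))
  have h2 := (hTK RH hp R hR).eventually (lt_mem_nhds (show -(η / 2) < 0 by linarith))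
  filter_upwards [h1, h2, eventually_gt_atTop (1 : ℝ)] with T t1 t2 hT
  have hk := kT_pos (T := T) (by linarith)
  have hlog : 0 < Real.log T := Real.log_pos hT
  have hL : 0 < LL (kT T) := by linarith [(LL_kT (T := T) (by linarith)).1]
  have hk2 : 0 < kT T * LL (kT T) ^ 2 := by positivity
  have t3 : (R ^ 2 - R) / 2 + 2 / Real.pi * kk 1 1 * EX R (kT T) 0 1 - η / 2 ≤
      WV R (kT T) / (kT T * LL (kT T) ^ 2) := by
    rw [le_div_iff₀ hk2, mul_comm]
    exact t1
  linarith

/-- the excess is not negative in the limit -/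
lemma EXT (hEL : S_EL) {R : ℝ} (hR : 0 < R) {δ : ℝ} (hδ : 0 < δ) :
    ∀ᶠ T : ℝ in atTop, -δ ≤ EX R (kT T) 0 1 :=
  kT_tendsto.eventually (hEL R 0 1 δ hR le_rfl (by norm_num) hδ)

theorem lower (hEL : S_EL) (hLOW : S_LOW) (hTK : S_TK) (RH : RiemannHypothesis) (hp : L2psi)
    {R η : ℝ} (hR : 0 < R) (hη : 0 < η) : ∀ᶠ T : ℝ in atTop, (R ^ 2 - R) / 2 - η ≤ WT R T := by
  set q : ℝ := 2 / Real.pi * kk 1 1 with hq
  have hq0 : 0 < q := by have := kk11_pos; have := Real.pi_pos; positivity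
  filter_upwards [lowT hLOW hTK RH hp hR (half_pos hη), EXT hEL hR (show 0 < η / 2 / q by positivity)]
    with T t1 t2
  have t3 := mul_le_mul_of_nonneg_left t2 hq0.le
  have t4 : q * (-(η / 2 / q)) = -(η / 2) := by field_simp
  rw [t4] at t3
  linarith

/-- along a filter: the extremal value forces the excess to vanish -/
theorem EX_lim (hEL : S_EL) (hLOW : S_LOW) (hTK : S_TK) (RH : RiemannHypothesis) (hp : L2psi)
    {R : ℝ} (hR : 0 < R) {l : Filter ℝ} (hl : l ≤ atTop)
    (h : Tendsto (WT R) l (𝓝 ((R ^ 2 - R) / 2))) :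
    Tendsto (fun T => EX R (kT T) 0 1) l (𝓝 0) := by
  set q : ℝ := 2 / Real.pi * kk 1 1 with hq
  have hq0 : 0 < q := by have := kk11_pos; have := Real.pi_pos; positivity
  rw [tendsto_order]
  constructor
  · intro a ha
    filter_upwards [hl (EXT hEL hR (show 0 < -a / 2 by linarith))] with T t1
    linarith
  · intro b hb
    have hqb : 0 < q * b := by positivity
    filter_upwards [hl (lowT hLOW hTK RH hp hR (show 0 < q * b / 3 by positivity)),
      h.eventually (gt_mem_nhds (show (R ^ 2 - R) / 2 < (R ^ 2 - R) / 2 + q * b / 3 by linarith))]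
      with T t1 t2
    have t3 : q * EX R (kT T) 0 1 < q * b := by linarith
    exact lt_of_mul_lt_mul_left t3 hq0.le

lemma inv_kT_top : Tendsto (fun T => 1 / kT T) atTop atTop := by
  have := tendsto_inv_nhdsGT_zero.comp kT_tendsto
  simpa [Function.comp_def, one_div] using this

/-- along a filter: the extremal value forces the spacings to be near the lattice -/
theorem away_lim (hEL : S_EL) (hLOW : S_LOW) (hTK : S_TK) (hXS : S_XS) (RH : RiemannHypothesis)
    (hp : L2psi) {R : ℝ} (hR : 0 < R) {l : Filter ℝ} (hl : l ≤ atTop)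
    (h : Tendsto (WT R) l (𝓝 ((R ^ 2 - R) / 2))) (ε : ℝ) (hε : 0 < ε) :
    Tendsto (fun T => ((Pool.Agent.Y763.AH.BT R ε T).card : ℝ) / NZ T) l (𝓝 0) := by
  classical
  have hE := EX_lim hEL hLOW hTK RH hp hR hl h
  set l' : Filter ℝ := l.map (fun T => 1 / kT T) with hl'
  have hl'top : l' ≤ atTop := by
    rw [hl']
    exact (inv_kT_top.mono_left hl)
  have hXS' := hl (kT_tendsto.eventually (hXS RH R hR))
  have hN' : Tendsto (fun T => (NZ (1 / kT T) : ℝ) / nT (1 / kT T)) l (𝓝 1) :=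
    (Pool.Agent.Y763.AH.NZ_lim.comp inv_kT_top).mono_left hl
  have hnT : ∀ᶠ T : ℝ in l, 0 < nT (1 / kT T) := by
    have h1 : ∀ᶠ T : ℝ in atTop, 0 < nT T := by
      filter_upwards [eventually_gt_atTop (1 : ℝ)] with T hT
      unfold nT
      have := Real.log_pos hT
      have := Real.pi_pos
      positivity
    exact hl (inv_kT_top.eventually h1)
  have hP : Tendsto (fun T => Pool.Agent.Y763.AH.PT R (1 / kT T) / nT (1 / kT T)) l (𝓝 0) := by
    have h1 : Tendsto (fun T => (4 / R ^ 2 * EX R (kT T) 0 1 + 1 -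
        (NZ (1 / kT T) : ℝ) / nT (1 / kT T)) / 2) l (𝓝 0) := by
      have := (((hE.const_mul (4 / R ^ 2)).add_const 1).sub hN').div_const 2
      simpa using this
    refine squeeze_zero' ?_ ?_ h1
    · filter_upwards [hnT] with T t1
      exact div_nonneg (Pool.Agent.Y763.AH.PT_nonneg hR _) t1.le
    · filter_upwards [hXS'] with T t1
      have hR2 : 0 < R ^ 2 := by positivity
      have t2 : ((NZ (1 / kT T) : ℝ) + 2 * Pool.Agent.Y763.AH.PT R (1 / kT T)) / nT (1 / kT T) - 1 ≤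
          4 / R ^ 2 * EX R (kT T) 0 1 := by
        have := mul_le_mul_of_nonneg_left t1 (show (0 : ℝ) ≤ 4 / R ^ 2 by positivity)
        have e : 4 / R ^ 2 * (R ^ 2 / 4 * (((NZ (1 / kT T) : ℝ) +
          2 * Pool.Agent.Y763.AH.PT R (1 / kT T)) / nT (1 / kT T) - 1)) =
          (((NZ (1 / kT T) : ℝ) + 2 * Pool.Agent.Y763.AH.PT R (1 / kT T)) / nT (1 / kT T) - 1) := by
          field_simp
        rw [e] at this
        exact this
      rw [add_div] at t2
      have e2 : 2 * Pool.Agent.Y763.AH.PT R (1 / kT T) / nT (1 / kT T) =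
        2 * (Pool.Agent.Y763.AH.PT R (1 / kT T) / nT (1 / kT T)) := by ring
      rw [e2] at t2
      linarith
  have hP' : Tendsto (fun T => Pool.Agent.Y763.AH.PT R T / nT T) l' (𝓝 0) := by
    rw [hl']
    exact tendsto_map'_iff.2 hP
  have hB := (Pool.Agent.Y763.AH.PT_iff RH hR hl'top).1 hP' ε hε
  rw [hl'] at hB
  have hB2 : Tendsto (fun T => ((Pool.Agent.Y763.AH.BT R ε (1 / kT T)).card : ℝ) / NZ (1 / kT T)) l
    (𝓝 0) := tendsto_map'_iff.1 hB
  have hmono : ∀ {T T' : ℝ}, T ≤ T' → NZ T ≤ NZ T' := fun h => SG.NZ_mono h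
  have hquot : ∀ᶠ T : ℝ in l, (NZ (1 / kT T) : ℝ) ≤ 4 * NZ T ∧ 0 < (NZ T : ℝ) := by
    have h1 : ∀ᶠ T : ℝ in atTop, (NZ T : ℝ) / nT T < 2 :=
      Pool.Agent.Y763.AH.NZ_lim.eventually (gt_mem_nhds (by norm_num))
    have h2 : ∀ᶠ T : ℝ in atTop, 2 / 3 < (NZ T : ℝ) / nT T :=
      Pool.Agent.Y763.AH.NZ_lim.eventually (lt_mem_nhds (by norm_num))
    have h3 : ∀ᶠ T : ℝ in atTop, 1 ≤ Real.log T := Real.tendsto_log_atTop.eventually_ge_atTop 1
    filter_upwards [hl h2, hl (inv_kT_top.eventually h1), hl h3, hl (eventually_ge_atTop (10 : ℝ)), hnT]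
      with T t2 t1 t3 hT tn
    have hpi := Real.pi_pos
    have hk := kT_pos (T := T) (by linarith)
    have hnTp : 0 < nT T := by
      unfold nT
      positivity
    rw [div_lt_iff₀ tn] at t1
    rw [lt_div_iff₀ hnTp] at t2
    have hkT : 1 / kT T ≤ T + 1 := by
      rw [div_le_iff₀ hk]
      have := mul_le_mul_of_nonneg_left (kT_ge (T := T) (by linarith)) (by linarith : 0 ≤ T + 1)
      rwa [mul_one_div_cancel (by linarith : T + 1 ≠ 0)] at this
    have hkT0 : 0 < 1 / kT T := by positivity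
    have hlog : Real.log (1 / kT T) ≤ Real.log T + 1 / T := (LL_kT (T := T) (by linarith)).2
    have hlog2 : Real.log T ≤ Real.log (1 / kT T) := (LL_kT (T := T) (by linarith)).1
    have hT1 : 1 / T ≤ 1 / 10 := one_div_le_one_div_of_le (by norm_num) hT
    have key : 1 / kT T * Real.log (1 / kT T) ≤ 4 / 3 * (T * Real.log T) := by
      have a1 : 1 / kT T ≤ 11 / 10 * T := by linarith
      have a2 : Real.log (1 / kT T) ≤ 11 / 10 * Real.log T := by linarith
      have := mul_le_mul a1 a2 (by linarith) (by linarith)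
      nlinarith [mul_pos (by linarith : 0 < T) (by linarith : 0 < Real.log T)]
    have key2 : nT (1 / kT T) ≤ 4 / 3 * nT T := by
      unfold nT
      have e1 : 1 / kT T * Real.log (1 / kT T) / (2 * Real.pi) ≤
        4 / 3 * (T * Real.log T) / (2 * Real.pi) := by gcongr
      have e2 : 4 / 3 * (T * Real.log T) / (2 * Real.pi) = 4 / 3 * (T * Real.log T / (2 * Real.pi)) := by
        ring
      rw [e2] at e1
      exact e1
    constructor
    · linarith
    · nlinarith
  refine squeeze_zero' (Eventually.of_forall fun T => by positivity) ?_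
    (show Tendsto (fun T => 4 * (((Pool.Agent.Y763.AH.BT R ε (1 / kT T)).card : ℝ) / NZ (1 / kT T))) l
      (𝓝 0) by simpa using hB2.const_mul 4)
  filter_upwards [hquot, hl (eventually_ge_atTop (1 : ℝ))] with T t1 hT
  have hle : T ≤ 1 / kT T := by
    have := kT_le (T := T) (by linarith)
    rw [le_div_iff₀ (kT_pos (by linarith))]
    have := mul_le_mul_of_nonneg_left this (by linarith : 0 ≤ T)
    rwa [mul_one_div_cancel (by linarith : T ≠ 0)] at this
  have hcard : ((Pool.Agent.Y763.AH.BT R ε T).card : ℝ) ≤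
      (Pool.Agent.Y763.AH.BT R ε (1 / kT T)).card := by
    have : Pool.Agent.Y763.AH.BT R ε T ⊆ Pool.Agent.Y763.AH.BT R ε (1 / kT T) := by
      intro n hn
      unfold Pool.Agent.Y763.AH.BT at hn ⊢
      rw [Finset.mem_filter, Finset.mem_Ioc] at hn ⊢
      exact ⟨⟨hn.1.1, hn.1.2.trans (hmono hle)⟩, hn.2⟩
    exact_mod_cast Finset.card_le_card this
  have hn : (0 : ℝ) < NZ (1 / kT T) := lt_of_lt_of_le t1.2 (by exact_mod_cast hmono hle)
  rw [← mul_div_assoc, div_le_div_iff₀ t1.2 hn]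
  have hc0 : (0 : ℝ) ≤ (Pool.Agent.Y763.AH.BT R ε (1 / kT T)).card := by positivity
  nlinarith [t1.1, t1.2, hcard, hn]

/-- the upper bound under the Alternative Hypothesis for almost all spacings -/
theorem upper (hUPP : S_UPP) (hSX : S_SX) (hTK : S_TK) (RH : RiemannHypothesis)
    (hp : L2psi) {R : ℝ} (hR : 0 < R)
    (h : ∀ ε : ℝ, 0 < ε → Tendsto (fun T => ((Pool.Agent.Y763.AH.BT R ε T).card : ℝ) / NZ T) atTop (𝓝 0))
    {η : ℝ} (hη : 0 < η) : ∀ᶠ T : ℝ in atTop, WT R T ≤ (R ^ 2 - R) / 2 + η := by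
  have h1 := (Pool.Agent.Y763.AH.PT_iff RH hR le_rfl).2 h
  have h2 := kT_tendsto.eventually (hUPP RH hp R (η / 2) hR (half_pos hη)
    (fun p q δ a b c => hSX RH R hR h1 p q δ a b c))
  have h3 := (hTK RH hp R hR).eventually (gt_mem_nhds (show 0 < η / 2 by linarith))
  filter_upwards [h2, h3, eventually_gt_atTop (1 : ℝ)] with T t1 t2 hT
  have hk := kT_pos (T := T) (by linarith)
  have hlog : 0 < Real.log T := Real.log_pos hT
  have hL : 0 < LL (kT T) := by linarith [(LL_kT (T := T) (by linarith)).1]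
  have hk2 : 0 < kT T * LL (kT T) ^ 2 := by positivity
  have t3 : WV R (kT T) / (kT T * LL (kT T) ^ 2) ≤ (R ^ 2 - R) / 2 + η / 2 := by
    rw [div_le_iff₀ hk2, mul_comm]
    exact t1
  linarith

/-- **The extremal property in terms of the primes.** -/
theorem main (hEL : S_EL) (hLOW : S_LOW) (hUPP : S_UPP) (hXS : S_XS) (hSX : S_SX) (hTK : S_TK)
    (RH : RiemannHypothesis) (hp : L2psi) {R : ℝ} (hR : 0 < R) :
    Tendsto (WT R) atTop (𝓝 ((R ^ 2 - R) / 2)) ↔
      ∀ ε : ℝ, 0 < ε → Tendsto (fun T => ((Pool.Agent.Y763.AH.BT R ε T).card : ℝ) / NZ T) atTop (𝓝 0) := by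
  constructor
  · exact fun h ε hε => away_lim hEL hLOW hTK hXS RH hp hR le_rfl h ε hε
  · intro h
    rw [tendsto_order]
    constructor
    · intro a ha
      filter_upwards [lower hEL hLOW hTK RH hp hR (show 0 < ((R ^ 2 - R) / 2 - a) / 2 by linarith)] with T t
      linarith
    · intro b hb
      filter_upwards [upper hUPP hSX hTK RH hp hR h (show 0 < (b - (R ^ 2 - R) / 2) / 2 by linarith)] with T t
      linarith

end Pool.Agent.Q260.AH
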