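import Pool.Agent.Q260.AH.Dg
import Pool.Agent.Q260.AH.Fin

set_option autoImplicit false

/-!
# Project GW: assembly
-/

namespace Pool.Agent.Q260.AH

open MeasureTheory Filter Topology Set
open Pool.Agent.Y749.Rig (ZZ mm nT)
open Pool.Agent.Q260.GM (gd LL kk Dl L2psi SS kT kT_pos kT_le kT_ge LL_kT kT_tendsto)
open SG (NZ)

lemma SM_mono {c c' T T' : ℝ} (hc : c ≤ c') (hT : T ≤ T') : Q172.HS.SM c T ⊆ Q172.HS.SM c' T' := by
  intro n hn
  unfold Q172.HS.SM at hn ⊢
  rw [Finset.mem_filter, Finset.mem_Ioc] at hn ⊢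
  exact ⟨⟨hn.1.1, hn.1.2.trans (SG.NZ_mono hT)⟩, hn.2.trans_le hc⟩

lemma nT_mul {q T : ℝ} (hq : 0 < q) (hT : 1 < T) (h : -(Real.log q) ≤ Real.log T / 2) :
    q / 2 * nT T ≤ nT (q * T) := by
  unfold nT
  rw [Real.log_mul hq.ne' (by linarith)]
  have hpi := Real.pi_pos
  have hl := Real.log_pos hT
  have e : q / 2 * (T * Real.log T / (2 * Real.pi)) = (q * T * (Real.log T / 2)) / (2 * Real.pi) := by ring
  rw [e]
  gcongr
  linarith

lemma nT_mono {T T' : ℝ} (h0 : 1 ≤ T) (h : T ≤ T') : nT T ≤ nT T' := by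
  unfold nT
  have hpi := Real.pi_pos
  have := Real.log_nonneg h0
  have h1 : 0 ≤ T' := by linarith
  gcongr

/-- **small gaps from the primes**: positive proportion -/
theorem gw (hZP : S_ZP) (hUPP : S_UPPg) (hNG : S_NG) (hTK : S_TKg) (RH : RiemannHypothesis) (hp : L2psi)
    {w : ℝ → ℝ} {R lam : ℝ} (hw : Wok w R) (hlam : 0 < lam)
    (hk : ∀ x : ℝ, lam ≤ x → ∫ s in (0 : ℝ)..R, w s * Real.cos (2 * Real.pi * x * s) ≤ 0)
    {η : ℝ} (hη : 0 < η) : ∃ δ c C : ℝ, 0 < δ ∧ 0 < c ∧ 1 ≤ C ∧ ∀ᶠ T : ℝ in atTop,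
      (∫ s in (0 : ℝ)..R, w s) - w 0 / 2 + η ≤ WTg w R T →
        c ≤ ((Q172.HS.SM (lam - δ) (C * T)).card : ℝ) / NZ (C * T) := by
  by_contra hcon
  push Not at hcon
  set thr : ℝ := (∫ s in (0 : ℝ)..R, w s) - w 0 / 2 with hthr
  have hch : ∀ j : ℕ, ∃ T : ℝ, (j : ℝ) + 10 ≤ T ∧ thr + η ≤ WTg w R T ∧
      ((Q172.HS.SM (lam - 1 / ((j : ℝ) + 1)) (((j : ℝ) + 1) * T)).card : ℝ) / NZ (((j : ℝ) + 1) * T) <
        1 / ((j : ℝ) + 1) ^ 2 := by
    intro j
    have h1 := hcon (1 / ((j : ℝ) + 1)) (1 / ((j : ℝ) + 1) ^ 2) ((j : ℝ) + 1) (by positivity)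
      (by positivity) (by have : (0 : ℝ) ≤ j := Nat.cast_nonneg j
                          linarith)
    obtain ⟨T, h2, h3⟩ := (h1.and_eventually (eventually_ge_atTop ((j : ℝ) + 10))).exists
    exact ⟨T, h3, h2.1, h2.2⟩
  choose T hT hW hS using hch
  have hTtop : Tendsto T atTop atTop := by
    refine tendsto_atTop_mono (fun j => (by linarith [hT j] : (j : ℝ) ≤ T j)) tendsto_natCast_atTop_atTop
  have hκ : Tendsto (fun j => kT (T j)) atTop (𝓝[>] 0) := kT_tendsto.comp hTtop
  set l : Filter ℝ := Filter.map (fun j => kT (T j)) atTop with hl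
  have hl0 : l ≤ 𝓝[>] 0 := hκ
  have hev : ∀ P : ℝ → Prop, (∀ᶠ κ in l, P κ) ↔ ∀ᶠ j in atTop, P (kT (T j)) := fun P => by
    rw [hl, eventually_map]
  -- the counts
  have hcount : ∀ q δ' : ℝ, 0 < q → 0 < δ' → Tendsto (fun j =>
      ((Q172.HS.SM (lam - δ') (q / kT (T j))).card : ℝ) / nT (q / kT (T j))) atTop (𝓝 0) := by
    intro q δ' hq hδ'
    have hlim : Tendsto (fun j : ℕ => 8 / q * (1 / ((j : ℝ) + 1))) atTop (𝓝 0) := by
      have := tendsto_one_div_add_atTop_nhds_zero_nat (𝕜 := ℝ)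
      simpa using this.const_mul (8 / q)
    have hN : ∀ᶠ t : ℝ in atTop, (NZ t : ℝ) / nT t < 2 :=
      Pool.Agent.Y763.AH.NZ_lim.eventually (gt_mem_nhds (by norm_num))
    have hJT : Tendsto (fun j : ℕ => ((j : ℝ) + 1) * T j) atTop atTop := by
      refine tendsto_atTop_mono (fun j => ?_) hTtop
      have : (0 : ℝ) ≤ j := Nat.cast_nonneg j
      nlinarith [hT j]
    have hlogT : ∀ᶠ j : ℕ in atTop, -(Real.log q) ≤ Real.log (T j) / 2 := by
      have h1 : Tendsto (fun j => Real.log (T j) / 2) atTop atTop :=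
        (Real.tendsto_log_atTop.comp hTtop).atTop_div_const (by norm_num)
      exact h1.eventually_ge_atTop _
    have hjbig : ∀ᶠ j : ℕ in atTop, 2 * q + 1 / δ' + 1 ≤ (j : ℝ) :=
      tendsto_natCast_atTop_atTop.eventually_ge_atTop _
    have hqT : ∀ᶠ j : ℕ in atTop, 1 ≤ q * T j := by
      have h1 : Tendsto (fun j => q * T j) atTop atTop := hTtop.const_mul_atTop hq
      exact h1.eventually_ge_atTop _
    refine squeeze_zero' ?_ ?_ hlim
    · filter_upwards [hqT] with j h1
      have hTj : 10 ≤ T j := by linarith [hT j, (Nat.cast_nonneg j : (0 : ℝ) ≤ j)]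
      have hkp := kT_pos (T := T j) (by linarith)
      have h2 : T j ≤ 1 / kT (T j) := by
        rw [le_div_iff₀ hkp]
        have := mul_le_mul_of_nonneg_left (kT_le (T := T j) (by linarith)) (by linarith : 0 ≤ T j)
        rwa [mul_one_div_cancel (by linarith : T j ≠ 0)] at this
      have h3 : 1 ≤ q / kT (T j) := by
        have : q * T j ≤ q * (1 / kT (T j)) := mul_le_mul_of_nonneg_left h2 hq.le
        rw [mul_one_div] at this
        linarith
      have h4 : 0 ≤ nT (q / kT (T j)) := by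
        unfold nT
        have := Real.pi_pos
        have := Real.log_nonneg h3
        positivity
      positivity
    · filter_upwards [hJT.eventually hN, hlogT, hjbig, hqT] with j h1 h2 h3 h4
      have hj0 : (0 : ℝ) ≤ j := Nat.cast_nonneg j
      have hj1 : (0 : ℝ) < (j : ℝ) + 1 := by linarith
      have hTj : (j : ℝ) + 10 ≤ T j := hT j
      have hTp : 0 < T j := by linarith
      have hkp := kT_pos (T := T j) (by linarith)
      have hlogp : 0 < Real.log (T j) := Real.log_pos (by linarith)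
      have hpi := Real.pi_pos
      have hnT : 0 < nT (T j) := by unfold nT; positivity
      have e1 : T j ≤ 1 / kT (T j) := by
        rw [le_div_iff₀ hkp]
        have := mul_le_mul_of_nonneg_left (kT_le (T := T j) (by linarith)) hTp.le
        rwa [mul_one_div_cancel hTp.ne'] at this
      have e2 : 1 / kT (T j) ≤ T j + 1 := by
        rw [div_le_iff₀ hkp]
        have := mul_le_mul_of_nonneg_left (kT_ge (T := T j) hTp) (by linarith : 0 ≤ T j + 1)
        rwa [mul_one_div_cancel (by linarith : T j + 1 ≠ 0)] at this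
      have e3 : q * T j ≤ q / kT (T j) := by
        have : q * T j ≤ q * (1 / kT (T j)) := mul_le_mul_of_nonneg_left e1 hq.le
        rwa [mul_one_div] at this
      have e4 : q / kT (T j) ≤ ((j : ℝ) + 1) * T j := by
        have h5 : q * (1 / kT (T j)) ≤ q * (T j + 1) := mul_le_mul_of_nonneg_left e2 hq.le
        rw [mul_one_div] at h5
        have h6 : q * (T j + 1) ≤ q * (2 * T j) := mul_le_mul_of_nonneg_left (by linarith) hq.le
        have h7 : 1 / δ' > 0 := by positivity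
        have h8 : q * (2 * T j) ≤ ((j : ℝ) + 1) * T j := by nlinarith
        linarith
      -- the denominator
      have d1 : q / 2 * nT (T j) ≤ nT (q / kT (T j)) :=
        (nT_mul hq (by linarith) h2).trans (nT_mono h4 e3)
      have dpos : 0 < nT (q / kT (T j)) := lt_of_lt_of_le (by positivity) d1
      -- the numerator
      have n1 : ((Q172.HS.SM (lam - δ') (q / kT (T j))).card : ℝ) ≤
          (Q172.HS.SM (lam - 1 / ((j : ℝ) + 1)) (((j : ℝ) + 1) * T j)).card := by
        have hδ2 : 1 / ((j : ℝ) + 1) ≤ δ' := by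
          rw [div_le_iff₀ hj1]
          have h9 : 1 / δ' ≤ (j : ℝ) + 1 := by linarith
          rw [div_le_iff₀ hδ'] at h9
          linarith
        have h10 : lam - δ' ≤ lam - 1 / ((j : ℝ) + 1) := by linarith
        exact Nat.cast_le.2 (Finset.card_le_card (SM_mono h10 e4))
      have hnJ : 0 < nT (((j : ℝ) + 1) * T j) := by
        unfold nT
        have : 1 < ((j : ℝ) + 1) * T j := by nlinarith
        have := Real.log_pos this
        positivity
      have n2 : (NZ (((j : ℝ) + 1) * T j) : ℝ) ≤ 2 * nT (((j : ℝ) + 1) * T j) := by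
        rw [div_lt_iff₀ hnJ] at h1
        exact h1.le
      have n3 : nT (((j : ℝ) + 1) * T j) ≤ 2 * ((j : ℝ) + 1) * nT (T j) := by
        unfold nT
        rw [Real.log_mul hj1.ne' hTp.ne']
        have h9 : Real.log ((j : ℝ) + 1) ≤ Real.log (T j) := Real.log_le_log hj1 (by linarith)
        have e : 2 * ((j : ℝ) + 1) * (T j * Real.log (T j) / (2 * Real.pi)) =
          (((j : ℝ) + 1) * T j * (2 * Real.log (T j))) / (2 * Real.pi) := by ring
        rw [e]
        gcongr
        linarith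
      have hS' := hS j
      have hNn : (0 : ℝ) ≤ NZ (((j : ℝ) + 1) * T j) := Nat.cast_nonneg _
      have n4 : ((Q172.HS.SM (lam - 1 / ((j : ℝ) + 1)) (((j : ℝ) + 1) * T j)).card : ℝ) ≤
          1 / ((j : ℝ) + 1) ^ 2 * NZ (((j : ℝ) + 1) * T j) := by
        rcases hNn.eq_or_lt with h0 | h0
        · have hz : NZ (((j : ℝ) + 1) * T j) = 0 := by exact_mod_cast h0.symm
          have : Q172.HS.SM (lam - 1 / ((j : ℝ) + 1)) (((j : ℝ) + 1) * T j) = ∅ := by
            unfold Q172.HS.SM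
            rw [hz]
            simp
          rw [this, hz]
          simp
        · rw [div_lt_iff₀ h0] at hS'
          exact hS'.le
      have n5 : ((Q172.HS.SM (lam - δ') (q / kT (T j))).card : ℝ) ≤ 4 / ((j : ℝ) + 1) * nT (T j) := by
        calc _ ≤ 1 / ((j : ℝ) + 1) ^ 2 * NZ (((j : ℝ) + 1) * T j) := n1.trans n4
          _ ≤ 1 / ((j : ℝ) + 1) ^ 2 * (2 * (2 * ((j : ℝ) + 1) * nT (T j))) := by
            refine mul_le_mul_of_nonneg_left ?_ (by positivity)
            linarith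
          _ = 4 / ((j : ℝ) + 1) * nT (T j) := by field_simp; ring
      rw [div_le_iff₀ dpos]
      calc _ ≤ 4 / ((j : ℝ) + 1) * nT (T j) := n5
        _ = 8 / q * (1 / ((j : ℝ) + 1)) * (q / 2 * nT (T j)) := by field_simp; ring
        _ ≤ _ := mul_le_mul_of_nonneg_left d1 (by positivity)
  -- the blocks
  have hblock : ∀ p q δ : ℝ, 0 ≤ p → p < q → 0 < δ → ∀ᶠ κ : ℝ in l,
      BX w R κ p q ≤ (∫ s in (0 : ℝ)..R, w s) / 2 * (q - p) + δ := by
    intro p q δ hp0 hpq hδ
    obtain ⟨δ', K, hδ', hK, h1⟩ := hNG RH w R lam hw hlam hk p q (δ / 2) hp0 hpq (half_pos hδ)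
    have h2 := (hcount q δ' (lt_of_le_of_lt hp0 hpq) hδ').eventually
      (gt_mem_nhds (show (0 : ℝ) < δ / 2 / K by positivity))
    rw [hev]
    filter_upwards [hκ.eventually h1, h2] with j a1 a2
    have a3 := mul_le_mul_of_nonneg_left a2.le hK.le
    have a4 : K * (δ / 2 / K) = δ / 2 := by field_simp
    rw [a4] at a3
    linarith
  have hW1 := (hev _).1 (hUPP RH hp w R ((∫ s in (0 : ℝ)..R, w s) / 2) (η / 3) l hw hl0 (by linarith)
    (hZP RH w R _ l hw hl0 (fun p q δ a b c => hblock p q δ a.le b c)))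
  have hW2 := (hTtop.eventually ((hTK RH hp w R hw).eventually (gt_mem_nhds (show (0 : ℝ) < η / 3 by linarith))))
  obtain ⟨j, h1, h2⟩ := (hW1.and hW2).exists
  have hTj : (j : ℝ) + 10 ≤ T j := hT j
  have hj0 : (0 : ℝ) ≤ j := Nat.cast_nonneg j
  have hk' := kT_pos (T := T j) (by linarith)
  have hlog : 0 < Real.log (T j) := Real.log_pos (by linarith)
  have hL : 0 < LL (kT (T j)) := by linarith [(LL_kT (T := T j) (by linarith)).1]
  have hk2 : 0 < kT (T j) * LL (kT (T j)) ^ 2 := by positivity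
  have t3 : WVg w (kT (T j)) / (kT (T j) * LL (kT (T j)) ^ 2) ≤ thr + η / 3 := by
    rw [div_le_iff₀ hk2, mul_comm]
    have e : 2 * ((∫ s in (0 : ℝ)..R, w s) / 2) - w 0 / 2 + η / 3 = thr + η / 3 := by rw [hthr]; ring
    rw [e] at h1
    exact h1
  have := hW j
  linarith

end Pool.Agent.Q260.AH
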