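import Pool.Agent.Q260.AH.Fing

set_option autoImplicit false

/-!
# Project GW: the small gaps at heights comparable with `T`; the classical kernel
-/

namespace Pool.Agent.Q260.AH

open MeasureTheory Filter Topology Set
open Pool.Agent.Y749.Rig (ZZ mm nT nT_pos)
open Pool.Agent.Q260.GM (gd LL kk Dl L2psi SS kT kT_pos kT_le kT_ge LL_kT kT_tendsto)
open SG (NZ ord)
open H177.Lat (del xlog_low)

/-- the small gaps at heights in `[c T, C T]` -/
def GP (b c C T : ℝ) : Set ℕ := {n : ℕ | 1 ≤ n ∧ c * T ≤ ord n ∧ ord n ≤ C * T ∧ ord (n + 1) - ord n < b * (2 * Real.pi / Real.log T)}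

theorem gw_loc (hZP : S_ZP) (hUPP : S_UPPg) (hNG : S_NG) (hTK : S_TKg) (RH : RiemannHypothesis) (hp : L2psi)
    {w : ℝ → ℝ} {R lam : ℝ} (hw : Wok w R) (hlam : 0 < lam)
    (hk : ∀ x : ℝ, lam ≤ x → ∫ s in (0 : ℝ)..R, w s * Real.cos (2 * Real.pi * x * s) ≤ 0)
    {η : ℝ} (hη : 0 < η) : ∃ δ c C : ℝ, 0 < δ ∧ 0 < c ∧ 1 ≤ C ∧ ∀ᶠ T : ℝ in atTop,
      (∫ s in (0 : ℝ)..R, w s) - w 0 / 2 + η ≤ WTg w R T →
        c * NZ T ≤ ((GP (lam - δ) c C T).ncard : ℝ) := by
  obtain ⟨δ, c, C, hδ, hc, hC, h⟩ := gw hZP hUPP hNG hTK RH hp hw hlam hk hη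
  obtain ⟨c1, hc1, hc11, hear⟩ := Pool.Agent.Y763.AH.early (η := c / 4) (by positivity)
  have hN : ∀ᶠ t : ℝ in atTop, 1 / 2 < (NZ t : ℝ) / nT t :=
    Pool.Agent.Y763.AH.NZ_lim.eventually (lt_mem_nhds (by norm_num))
  have hlog : Tendsto (fun T : ℝ => Real.log T) atTop atTop := Real.tendsto_log_atTop
  refine ⟨δ / 2, min c1 (c / 2), C, by positivity, lt_min hc1 (by positivity), hC, ?_⟩
  filter_upwards [h, hear, hN, eventually_ge_atTop (10 : ℝ),
    hlog.eventually_gt_atTop ((1 + 2 * |lam| / δ) * |Real.log c1| + |Real.log c1| + 1),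
    (tendsto_id.const_mul_atTop hc1).eventually_ge_atTop (3 : ℝ)] with T k1 k2 k3 hT k4 k5 hW
  have hpi := Real.pi_pos
  have k5' : 3 ≤ c1 * T := k5
  have hTp : 0 < T := by linarith
  have hn := nT_pos hT
  rw [lt_div_iff₀ hn] at k3
  have hCT : T ≤ C * T := by nlinarith
  have hmono : NZ T ≤ NZ (C * T) := SG.NZ_mono hCT
  have hmono' : (NZ T : ℝ) ≤ NZ (C * T) := by exact_mod_cast hmono
  have hNp : (0 : ℝ) < NZ (C * T) := by linarith
  have k6 := k1 hW
  rw [le_div_iff₀ hNp] at k6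
  -- the small spacings beyond `c1 T`
  set S : Finset ℕ := (Q172.HS.SM (lam - δ) (C * T)).filter (fun n => NZ (c1 * T) < n) with hS
  have hcard : c / 2 * NZ T ≤ (S.card : ℝ) := by
    have h1 : Q172.HS.SM (lam - δ) (C * T) ⊆ S ∪ Finset.Ioc 0 (NZ (c1 * T)) := by
      intro n hn
      by_cases h2 : NZ (c1 * T) < n
      · exact Finset.mem_union_left _ (Finset.mem_filter.2 ⟨hn, h2⟩)
      · refine Finset.mem_union_right _ (Finset.mem_Ioc.2 ⟨?_, not_lt.1 h2⟩)
        unfold Q172.HS.SM at hn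
        exact (Finset.mem_Ioc.1 (Finset.mem_filter.1 hn).1).1
    have h2 := (Finset.card_le_card h1).trans (Finset.card_union_le _ _)
    rw [Nat.card_Ioc, Nat.sub_zero] at h2
    have h3 : ((Q172.HS.SM (lam - δ) (C * T)).card : ℝ) ≤ S.card + NZ (c1 * T) := by exact_mod_cast h2
    have h4 : c / 4 * nT T ≤ c / 2 * NZ (C * T) := by nlinarith
    nlinarith
  have hlc : 0 ≤ |Real.log c1| := abs_nonneg _
  have hlT : Real.log T - |Real.log c1| ≤ Real.log (c1 * T) := by
    rw [Real.log_mul hc1.ne' hTp.ne']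
    have := neg_abs_le (Real.log c1)
    linarith
  have hq : 0 ≤ (1 + 2 * |lam| / δ) * |Real.log c1| := by positivity
  have hlogT : 0 < Real.log T := by linarith
  have hlc1 : 0 < Real.log (c1 * T) := by linarith
  have hsub : (S : Set ℕ) ⊆ GP (lam - δ / 2) (min c1 (c / 2)) C T := by
    intro n hn
    rw [Finset.mem_coe, hS, Finset.mem_filter] at hn
    obtain ⟨hn1, hn2⟩ := hn
    unfold Q172.HS.SM at hn1
    rw [Finset.mem_filter, Finset.mem_Ioc] at hn1
    obtain ⟨⟨h0, h1⟩, h2⟩ := hn1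
    have h1' : 1 ≤ n := h0
    have a1 : ord n ≤ C * T := (SG.ord_le_iff h1' _).2 h1
    have a2 : c1 * T < ord n := by
      by_contra h3
      exact absurd ((SG.ord_le_iff h1' _).1 (not_lt.1 h3)) (not_le.2 hn2)
    have a3 : ord n ≤ ord (n + 1) := SG.ord_mono h1' (Nat.le_succ n)
    refine ⟨h1', ?_, a1, ?_⟩
    · have : min c1 (c / 2) * T ≤ c1 * T := mul_le_mul_of_nonneg_right (min_le_left _ _) hTp.le
      linarith
    · have a4 := xlog_low (x := ord n) (y := ord (n + 1)) (by linarith) a3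
      unfold del at h2
      rw [div_lt_iff₀ (by positivity)] at h2
      have a5 : Real.log (c1 * T) ≤ Real.log (ord n) := Real.log_le_log (by linarith) a2.le
      have a6 : (ord (n + 1) - ord n) * Real.log (c1 * T) ≤ (ord (n + 1) - ord n) * (Real.log (ord n) + 1) :=
        mul_le_mul_of_nonneg_left (by linarith) (by linarith)
      have a7 : (ord (n + 1) - ord n) * Real.log (c1 * T) < (lam - δ) * (2 * Real.pi) := by linarith
      -- compare the logarithms
      have a8 : (lam - δ) * Real.log T ≤ (lam - δ / 2) * Real.log (c1 * T) := by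
        have b1 : (1 + 2 * |lam| / δ) * |Real.log c1| * (δ / 2) = (δ / 2 + |lam|) * |Real.log c1| := by field_simp
        have b2 : (1 + 2 * |lam| / δ) * |Real.log c1| ≤ Real.log T := by linarith
        have b3 := mul_le_mul_of_nonneg_right b2 (by positivity : 0 ≤ δ / 2)
        rw [b1] at b3
        rcases le_total 0 (lam - δ / 2) with b4 | b4
        · have b5 := mul_le_mul_of_nonneg_left hlT b4
          have b6 : (lam - δ / 2) * |Real.log c1| ≤ |lam| * |Real.log c1| :=
            mul_le_mul_of_nonneg_right (by linarith [le_abs_self lam]) hlc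
          have b7 : 0 ≤ δ / 2 * |Real.log c1| := by positivity
          nlinarith
        · have b5 : Real.log (c1 * T) ≤ Real.log T := Real.log_le_log (by linarith) (by nlinarith)
          have b6 : (lam - δ / 2) * Real.log T ≤ (lam - δ / 2) * Real.log (c1 * T) :=
            mul_le_mul_of_nonpos_left b5 b4
          nlinarith
      have a9 : (ord (n + 1) - ord n) * (Real.log (c1 * T) * Real.log T) < (lam - δ / 2) * (2 * Real.pi) * Real.log (c1 * T) := by
        have b1 := mul_lt_mul_of_pos_right a7 hlogT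
        have b2 := mul_le_mul_of_nonneg_right a8 (by positivity : 0 ≤ 2 * Real.pi)
        nlinarith
      have a10 : (ord (n + 1) - ord n) * Real.log T < (lam - δ / 2) * (2 * Real.pi) := by
        have b1 : (ord (n + 1) - ord n) * (Real.log (c1 * T) * Real.log T) = ((ord (n + 1) - ord n) * Real.log T) * Real.log (c1 * T) := by ring
        rw [b1] at a9
        exact lt_of_mul_lt_mul_right a9 hlc1.le
      rw [← mul_div_assoc, lt_div_iff₀ hlogT]
      exact a10
  have hfin : (GP (lam - δ / 2) (min c1 (c / 2)) C T).Finite := by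
    refine (Finset.finite_toSet (Finset.Ioc 0 (NZ (C * T)))).subset ?_
    rintro n ⟨h1, -, h3, -⟩
    rw [Finset.coe_Ioc]
    exact ⟨h1, (SG.ord_le_iff h1 _).1 h3⟩
  have h5 := Set.ncard_le_ncard hsub hfin
  rw [Set.ncard_coe_finset] at h5
  have h6 : (S.card : ℝ) ≤ ((GP (lam - δ / 2) (min c1 (c / 2)) C T).ncard : ℝ) := by exact_mod_cast h5
  refine le_trans (le_trans ?_ hcard) h6
  exact mul_le_mul_of_nonneg_right (min_le_right _ _) (Nat.cast_nonneg _)

/-- the classical weight -/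
noncomputable def wp (R α : ℝ) : ℝ := Q172.HS.psi (min (|α| / R) 1)

lemma wp_ok {R : ℝ} (hR : 0 < R) : Wok (wp R) R := by
  refine ⟨hR, ?_, fun α hα => ?_⟩
  · unfold wp
    exact Q172.HS.psi_cont.comp (by fun_prop)
  · unfold wp
    rw [min_eq_right, Q172.HS.psi_one]
    rw [one_le_div hR]
    exact hα.trans (le_abs_self α)

lemma wp_scale {R : ℝ} (hR : 0 < R) (f : ℝ → ℝ) :
    ∫ s in (0 : ℝ)..R, wp R s * f s = R * ∫ t in (0 : ℝ)..1, Q172.HS.psi t * f (R * t) := by
  have h4 := intervalIntegral.integral_comp_mul_left (a := (0:ℝ)) (b := 1) (fun s => wp R s * f s) hR.ne'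
  rw [mul_zero, mul_one, smul_eq_mul] at h4
  have h5 : ∫ t in (0:ℝ)..1, Q172.HS.psi t * f (R * t) = ∫ t in (0:ℝ)..1, wp R (R * t) * f (R * t) := by
    refine intervalIntegral.integral_congr fun t ht => ?_
    rw [uIcc_of_le zero_le_one] at ht
    show Q172.HS.psi t * f (R * t) = wp R (R * t) * f (R * t)
    unfold wp
    rw [abs_of_nonneg (mul_nonneg hR.le ht.1), mul_div_cancel_left₀ _ hR.ne', min_eq_left ht.2]
  rw [h5]
  rw [h4]
  field_simp

lemma wp_cos {R : ℝ} (hR : 0 < R) {x : ℝ} (hx : 1 / R ≤ x) :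
    ∫ s in (0 : ℝ)..R, wp R s * Real.cos (2 * Real.pi * x * s) ≤ 0 := by
  rw [wp_scale hR]
  have h1 := Q172.HS.Kf_out' hR (x := x) (hx.trans (le_abs_self x))
  rw [Q172.HS.Kf_eq hR] at h1
  have h2 : ∫ t in (0 : ℝ)..1, Q172.HS.psi t * Real.cos (2 * Real.pi * x * (R * t)) =
      ∫ t in (0 : ℝ)..1, Q172.HS.psi t * Real.cos (2 * Real.pi * t * (R * x)) := by
    refine intervalIntegral.integral_congr fun t _ => ?_
    show Q172.HS.psi t * Real.cos (2 * Real.pi * x * (R * t)) = Q172.HS.psi t * Real.cos (2 * Real.pi * t * (R * x))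
    congr 2
    ring
  rw [h2]
  nlinarith

lemma wp_int {R : ℝ} (hR : 0 < R) : ∫ s in (0 : ℝ)..R, wp R s = R / 2 := by
  have h1 := wp_scale hR (fun _ => 1)
  simp only [mul_one] at h1
  rw [h1]
  have h2 := Q172.HS.Kf_zero hR
  rw [Q172.HS.Kf_eq hR] at h2
  simp only [mul_zero, Real.cos_zero, mul_one] at h2
  have h3 : R * (2 * ∫ t in (0 : ℝ)..1, Q172.HS.psi t) = R * 1 := by
    rw [h2]
    try ring
  linarith

lemma wp_zero (R : ℝ) : wp R 0 = 1 := by
  unfold wp Q172.HS.psi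
  simp

end Pool.Agent.Q260.AH
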