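import Pool.Agent.Q260.AH.Db
import Pool.Agent.Q260.GM.We

set_option autoImplicit false

/-!
# Project AH: the limit of the functional under the pair correlation conjecture
-/

namespace Pool.Agent.Q260.AH

open MeasureTheory Filter Topology Set
open Pool.Agent.Y749.Rig (ZZ mm nT Mp Weak)
open Pool.Agent.Q260.GM

lemma SS_nn (κ x : ℝ) : 0 ≤ SS κ x := SS_nonneg κ x

lemma WV_apx (hp : L2psi) {R ε : ℝ} (hR : 0 < R) {N : ℕ} {c : ℕ → ℝ} (h : Apx R ε N c) {κ : ℝ} (hκ : 0 < κ)
    (hL : 0 < LL κ) : |WV R κ - ∑ k ∈ Finset.range N, c k * SS κ ((k + 1) / LL κ)| ≤ ε * SS κ (1 / LL κ) := by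
  have hi : ∀ a : ℝ, 0 < a → IntegrableOn (fun u => Dl κ u ^ 2 * Real.exp (-(2 * (a / LL κ) * u))) (Ioi 0) :=
    fun a ha => Dl_sq_int hp hκ (by positivity)
  have h1 := hi 1 one_pos
  have hm : Measurable (Dl κ) := Pool.Agent.Q213.GM.Dl_meas κ
  have hW : IntegrableOn (fun u => max 0 (R - u / LL κ) * Dl κ u ^ 2) (Ioi 0) := by
    refine Integrable.mono' (h1.const_mul (R * Real.exp (2 * R))) ?_ ?_
    · exact (Measurable.mul (by fun_prop) (hm.pow_const 2)).aestronglyMeasurable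
    · refine (ae_restrict_iff' measurableSet_Ioi).2 (ae_of_all _ fun u hu => ?_)
      have hu0 : 0 < u := hu
      rw [Real.norm_of_nonneg (mul_nonneg (le_max_left _ _) (sq_nonneg _))]
      rcases le_total (R - u / LL κ) 0 with h3 | h3
      · rw [max_eq_left h3, zero_mul]
        positivity
      · rw [max_eq_right h3]
        have h4 : R - u / LL κ ≤ R := by
          have : 0 ≤ u / LL κ := by positivity
          linarith
        have h5 : 1 ≤ Real.exp (2 * R) * Real.exp (-(2 * (1 / LL κ) * u)) := by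
          rw [← Real.exp_add]
          apply Real.one_le_exp
          have : 2 * (1 / LL κ) * u = 2 * (u / LL κ) := by ring
          rw [this]
          linarith
        have h6 := sq_nonneg (Dl κ u)
        calc (R - u / LL κ) * Dl κ u ^ 2 ≤ R * Dl κ u ^ 2 := mul_le_mul_of_nonneg_right h4 h6
          _ ≤ R * Dl κ u ^ 2 * (Real.exp (2 * R) * Real.exp (-(2 * (1 / LL κ) * u))) :=
              le_mul_of_one_le_right (by positivity) h5
          _ = _ := by ring
  have hS : ∀ k : ℕ, c k * SS κ ((k + 1) / LL κ) =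
      ∫ u in Ioi (0 : ℝ), c k * (Dl κ u ^ 2 * Real.exp (-(2 * (((k : ℝ) + 1) / LL κ) * u))) := fun k => by
    rw [integral_const_mul]; rfl
  have hSi : ∀ k : ℕ, IntegrableOn (fun u => c k * (Dl κ u ^ 2 * Real.exp (-(2 * (((k : ℝ) + 1) / LL κ) * u)))) (Ioi 0) :=
    fun k => (hi (k + 1) (by positivity)).const_mul _
  have e : WV R κ - ∑ k ∈ Finset.range N, c k * SS κ ((k + 1) / LL κ) =
      ∫ u in Ioi (0 : ℝ), (max 0 (R - u / LL κ) * Dl κ u ^ 2 -
        ∑ k ∈ Finset.range N, c k * (Dl κ u ^ 2 * Real.exp (-(2 * (((k : ℝ) + 1) / LL κ) * u)))) := by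
    rw [integral_sub hW (integrable_finsetSum _ fun k _ => hSi k), integral_finsetSum _ fun k _ => hSi k]
    unfold WV
    congr 1
    exact Finset.sum_congr rfl fun k _ => hS k
  rw [e, ← Real.norm_eq_abs]
  have e2 : ε * SS κ (1 / LL κ) = ∫ u in Ioi (0 : ℝ), ε * (Dl κ u ^ 2 * Real.exp (-(2 * (1 / LL κ) * u))) := by
    rw [integral_const_mul]; rfl
  rw [e2]
  refine norm_integral_le_of_norm_le (h1.const_mul ε) ?_
  refine (ae_restrict_iff' measurableSet_Ioi).2 (ae_of_all _ fun u hu => ?_)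
  have hu0 : 0 < u := hu
  have h7 := h (u / LL κ) (by positivity)
  have e3 : max 0 (R - u / LL κ) * Dl κ u ^ 2 -
        ∑ k ∈ Finset.range N, c k * (Dl κ u ^ 2 * Real.exp (-(2 * (((k : ℝ) + 1) / LL κ) * u))) =
      -(((∑ k ∈ Finset.range N, c k * Real.exp (-(2 * (k + 1) * (u / LL κ)))) - max 0 (R - u / LL κ)) * Dl κ u ^ 2) := by
    rw [sub_mul, Finset.sum_mul, neg_sub]
    congr 1
    refine Finset.sum_congr rfl fun k _ => ?_
    have : 2 * (((k : ℝ) + 1) / LL κ) * u = 2 * (k + 1) * (u / LL κ) := by ring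
    rw [this]; ring
  rw [e3, norm_neg, norm_mul, Real.norm_eq_abs, Real.norm_of_nonneg (sq_nonneg _)]
  have e4 : 2 * (1 / LL κ) * u = 2 * (u / LL κ) := by ring
  rw [e4]
  calc _ ≤ ε * Real.exp (-(2 * (u / LL κ))) * Dl κ u ^ 2 := mul_le_mul_of_nonneg_right h7 (sq_nonneg _)
    _ = _ := by ring

lemma tent_int {R : ℝ} (hR : 0 < R) {ε : ℝ} {N : ℕ} {c : ℕ → ℝ} (h : Apx R ε N c) :
    |(∫ α in Ioi (0 : ℝ), max 0 (R - α) * mn α) - ∑ k ∈ Finset.range N, c k * MM (k + 1)| ≤ ε * MM 1 := by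
  have h1 := MM_int (a := 1) one_pos
  have hmc : Continuous mn := mn_cont
  have hW : IntegrableOn (fun α => max 0 (R - α) * mn α) (Ioi 0) := by
    refine Integrable.mono' (h1.const_mul (R * Real.exp (2 * R))) ?_ ?_
    · exact (Continuous.mul (by fun_prop) hmc).aestronglyMeasurable
    · refine (ae_restrict_iff' measurableSet_Ioi).2 (ae_of_all _ fun u hu => ?_)
      have hu0 : 0 < u := hu
      have hmn := mn_nonneg hu0.le
      rw [Real.norm_of_nonneg (mul_nonneg (le_max_left _ _) hmn)]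
      rcases le_total (R - u) 0 with h3 | h3
      · rw [max_eq_left h3, zero_mul]
        positivity
      · rw [max_eq_right h3]
        have h5 : 1 ≤ Real.exp (2 * R) * Real.exp (-(2 * 1 * u)) := by
          rw [← Real.exp_add]
          apply Real.one_le_exp
          linarith
        calc (R - u) * mn u ≤ R * mn u := mul_le_mul_of_nonneg_right (by linarith) hmn
          _ ≤ R * mn u * (Real.exp (2 * R) * Real.exp (-(2 * 1 * u))) :=
              le_mul_of_one_le_right (by positivity) h5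
          _ = _ := by ring
  have hS : ∀ k : ℕ, c k * MM (k + 1) = ∫ α in Ioi (0 : ℝ), c k * (Real.exp (-(2 * ((k : ℝ) + 1) * α)) * mn α) := fun k => by
    rw [integral_const_mul]; rfl
  have hSi : ∀ k : ℕ, IntegrableOn (fun α => c k * (Real.exp (-(2 * ((k : ℝ) + 1) * α)) * mn α)) (Ioi 0) :=
    fun k => (MM_int (a := (k : ℝ) + 1) (by positivity)).const_mul _
  have e : (∫ α in Ioi (0 : ℝ), max 0 (R - α) * mn α) - ∑ k ∈ Finset.range N, c k * MM (k + 1) =
      ∫ α in Ioi (0 : ℝ), (max 0 (R - α) * mn α -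
        ∑ k ∈ Finset.range N, c k * (Real.exp (-(2 * ((k : ℝ) + 1) * α)) * mn α)) := by
    rw [integral_sub hW (integrable_finsetSum _ fun k _ => hSi k), integral_finsetSum _ fun k _ => hSi k]
    congr 1
    exact Finset.sum_congr rfl fun k _ => hS k
  have e2 : ε * MM 1 = ∫ α in Ioi (0 : ℝ), ε * (Real.exp (-(2 * 1 * α)) * mn α) := by
    rw [integral_const_mul]; rfl
  rw [e, ← Real.norm_eq_abs, e2]
  refine norm_integral_le_of_norm_le (h1.const_mul ε) ?_
  refine (ae_restrict_iff' measurableSet_Ioi).2 (ae_of_all _ fun u hu => ?_)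
  have hu0 : 0 < u := hu
  have hmn := mn_nonneg hu0.le
  have h7 := h u hu0.le
  have e3 : max 0 (R - u) * mn u - ∑ k ∈ Finset.range N, c k * (Real.exp (-(2 * ((k : ℝ) + 1) * u)) * mn u) =
      -(((∑ k ∈ Finset.range N, c k * Real.exp (-(2 * (k + 1) * u))) - max 0 (R - u)) * mn u) := by
    rw [sub_mul, Finset.sum_mul, neg_sub]
    congr 1
    exact Finset.sum_congr rfl fun k _ => by ring
  rw [e3, norm_neg, norm_mul, Real.norm_eq_abs, Real.norm_of_nonneg hmn]
  calc _ ≤ ε * Real.exp (-(2 * u)) * mn u := mul_le_mul_of_nonneg_right h7 hmn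
    _ = _ := by rw [mul_one]; ring

lemma tent_val {R : ℝ} (hR : 1 ≤ R) : ∫ α in Ioi (0 : ℝ), max 0 (R - α) * mn α = (R ^ 2 - R) / 2 + 1 / 6 := by
  have hc : Continuous fun α => max 0 (R - α) * mn α := Continuous.mul (by fun_prop) mn_cont
  have e1 : ∫ α in Ioi (0 : ℝ), max 0 (R - α) * mn α = ∫ α in (0 : ℝ)..R, max 0 (R - α) * mn α := by
    rw [intervalIntegral.integral_of_le (by linarith)]
    refine setIntegral_eq_of_subset_of_forall_sdiff_eq_zero (s := Ioc (0 : ℝ) R) (t := Ioi (0 : ℝ)) measurableSet_Ioi Ioc_subset_Ioi_self ?_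
    rintro α ⟨h1, h2⟩
    have h3 : R < α := by
      by_contra h4
      exact h2 ⟨h1, not_lt.1 h4⟩
    rw [max_eq_left (by linarith), zero_mul]
  have hi : ∀ a b, IntervalIntegrable (fun α => max 0 (R - α) * mn α) volume a b := fun a b => hc.intervalIntegrable a b
  rw [e1, ← intervalIntegral.integral_add_adjacent_intervals (hi 0 1) (hi 1 R)]
  have e2 : ∫ α in (0 : ℝ)..1, max 0 (R - α) * mn α = ∫ α in (0 : ℝ)..1, (R * α - α ^ 2) := by
    refine intervalIntegral.integral_congr fun α hα => ?_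
    rw [uIcc_of_le zero_le_one] at hα
    show max 0 (R - α) * min α 1 = R * α - α ^ 2
    rw [max_eq_right (by linarith [hα.2]), min_eq_left hα.2]; ring
  have e3 : ∫ α in (1 : ℝ)..R, max 0 (R - α) * mn α = ∫ α in (1 : ℝ)..R, (R - α) := by
    refine intervalIntegral.integral_congr fun α hα => ?_
    rw [uIcc_of_le hR] at hα
    show max 0 (R - α) * min α 1 = R - α
    rw [max_eq_right (by linarith [hα.2]), min_eq_right hα.1, mul_one]
  have i1 : IntervalIntegrable (fun α : ℝ => R * α) volume 0 1 := (by fun_prop : Continuous fun α : ℝ => R * α).intervalIntegrable _ _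
  have i2 : IntervalIntegrable (fun α : ℝ => α ^ 2) volume 0 1 := (by fun_prop : Continuous fun α : ℝ => α ^ 2).intervalIntegrable _ _
  have i3 : IntervalIntegrable (fun _ : ℝ => R) volume 1 R := intervalIntegrable_const
  have i4 : IntervalIntegrable (fun α : ℝ => α) volume 1 R := (by fun_prop : Continuous fun α : ℝ => α).intervalIntegrable _ _
  rw [e2, e3, intervalIntegral.integral_sub i1 i2, intervalIntegral.integral_const_mul,
    integral_id, integral_pow, intervalIntegral.integral_sub i3 i4, integral_id,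
    intervalIntegral.integral_const, smul_eq_mul]
  norm_num
  ring

/-- **the limit under the pair correlation conjecture** -/
theorem W_pcc (hWA : S_WA) (hTK : S_TK) (RH : RiemannHypothesis) (hp : L2psi) (hw : Weak atTop) {R : ℝ} (hR : 1 ≤ R) :
    Tendsto (WT R) atTop (𝓝 ((R ^ 2 - R) / 2 + 1 / 6)) := by
  have hRp : 0 < R := by linarith
  have hRa : ∀ a : ℝ, 0 < a → Tendsto (fun T => ∫ x, ra a x ∂(Mp T)) atTop (𝓝 (1 + 2 * MM a)) := by
    intro a ha
    rw [← Pool.Agent.Q96.GM.mG_ra ha]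
    exact hw (ra a) (ra_cont ha) (ra_qd ha)
  have hS : ∀ a : ℝ, 0 < a → Tendsto (fun κ => SS κ (a / LL κ) / (κ * LL κ ^ 2)) (𝓝[>] 0) (𝓝 (MM a)) :=
    fun a ha => SS_lim RH hp hRa ha
  have hM1 := MM_nonneg 1
  have hWV : Tendsto (fun κ => WV R κ / (κ * LL κ ^ 2)) (𝓝[>] 0) (𝓝 ((R ^ 2 - R) / 2 + 1 / 6)) := by
    rw [Metric.tendsto_nhds]
    intro δ hδ
    set ε : ℝ := δ / (4 * (MM 1 + 1)) with hε
    have hε0 : 0 < ε := by positivity
    obtain ⟨N, c, hc⟩ := hWA R ε hRp hε0
    have h1 : Tendsto (fun κ => ∑ k ∈ Finset.range N, c k * (SS κ (((k : ℝ) + 1) / LL κ) / (κ * LL κ ^ 2))) (𝓝[>] 0)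
        (𝓝 (∑ k ∈ Finset.range N, c k * MM (k + 1))) :=
      tendsto_finsetSum _ fun k _ => (hS (k + 1) (by positivity)).const_mul _
    have h2 := tent_int hRp hc
    rw [tent_val hR] at h2
    filter_upwards [(Metric.tendsto_nhds.1 h1) (δ / 4) (by positivity),
      (Metric.tendsto_nhds.1 (hS 1 one_pos)) 1 one_pos, ev_pos, ev_L 1] with κ k1 k2 hκ hL
    have hLp : 0 < LL κ := by linarith
    have hq : 0 < κ * LL κ ^ 2 := by positivity
    have h3 := WV_apx hp hRp hc hκ hLp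
    rw [Real.dist_eq] at k1 k2 ⊢
    have h4 : |WV R κ / (κ * LL κ ^ 2) - ∑ k ∈ Finset.range N, c k * (SS κ (((k : ℝ) + 1) / LL κ) / (κ * LL κ ^ 2))| ≤
        ε * (MM 1 + 1) := by
      have e1 : WV R κ / (κ * LL κ ^ 2) - ∑ k ∈ Finset.range N, c k * (SS κ (((k : ℝ) + 1) / LL κ) / (κ * LL κ ^ 2)) =
          (WV R κ - ∑ k ∈ Finset.range N, c k * SS κ ((k + 1) / LL κ)) / (κ * LL κ ^ 2) := by
        rw [sub_div, Finset.sum_div]
        congr 1
        exact Finset.sum_congr rfl fun k _ => by ring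
      rw [e1, abs_div, abs_of_pos hq]
      have h5 : SS κ (1 / LL κ) / (κ * LL κ ^ 2) ≤ MM 1 + 1 := by
        have := (abs_lt.1 k2).2
        linarith
      calc _ ≤ ε * SS κ (1 / LL κ) / (κ * LL κ ^ 2) := div_le_div_of_nonneg_right h3 hq.le
        _ = ε * (SS κ (1 / LL κ) / (κ * LL κ ^ 2)) := by ring
        _ ≤ _ := mul_le_mul_of_nonneg_left h5 hε0.le
    have h6 : ε * (MM 1 + 1) = δ / 4 := by
      rw [hε]; field_simp
    have h7 : ε * MM 1 ≤ δ / 4 := by
      rw [← h6]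
      exact mul_le_mul_of_nonneg_left (by linarith) hε0.le
    rw [h6] at h4
    have k1' := k1.le
    rw [abs_le] at h2 h4 k1'
    rw [abs_lt]
    constructor <;> linarith [h2.1, h2.2, h4.1, h4.2, k1'.1, k1'.2]
  have h1 := hWV.comp kT_tendsto
  have h2 := (hTK RH hp R hRp).add h1
  rw [zero_add] at h2
  refine h2.congr fun T => ?_
  show WT R T - WV R (kT T) / (kT T * LL (kT T) ^ 2) + WV R (kT T) / (kT T * LL (kT T) ^ 2) = WT R T
  ring

end Pool.Agent.Q260.AH
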